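import Mathlib
import Pool.Agent.H812.Tm.Spec4

/-!
# `SJac`: smoothness of leaves from the Jacobi operator

The values of the chain of good functions along a leaf satisfy an infinite system of equations with
compact parameters; its linearisation is a tridiagonal operator on `ℓ^∞`, which is bijective by
`GTri`.  The inverse function theorem in `ℝ × ℓ^∞` gives the smoothness.
-/

set_option autoImplicit false

open Real Filter Topology Set
open scoped ContDiff BoundedContinuousFunction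

namespace Pool.Agent.H302.TmSJac

open Pool.Agent.W811.Stu Pool.Agent.H812.Tm

/-! ### the normal form for all digits -/

lemma nf_mono {δ κ : ℝ} {𝒟 𝒟' : Set ℕ} (h : NF δ κ 𝒟) (hs : 𝒟' ⊆ 𝒟) : NF δ κ 𝒟' := by
  obtain ⟨n, c, F, K, h1, h2, h3, h4⟩ := h
  exact ⟨n, c, F, K, h1, h2, h3, fun D hD => h4 D (hs hD)⟩

lemma nf_all (ha : SNFa) (hb : SNFb) (hu : SNFu) {δ κ : ℝ} (hδ : δ ≠ 0) (h1 : 1 ≤ κ)
    (h2 : κ < cc δ) : NF δ κ {D | 1 ≤ D} := by
  obtain ⟨D1, hD1⟩ := hb δ κ hδ h1 h2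
  have key : ∀ k, NF δ κ ({D | D1 ≤ D} ∪ {D | 1 ≤ D ∧ D ≤ k}) := by
    intro k
    induction k with
    | zero =>
      refine nf_mono hD1 ?_
      intro D hD
      rcases hD with h | h
      · exact h
      · obtain ⟨h, h'⟩ := h
        omega
    | succ k ih =>
      have h3 := hu δ κ _ _ ih (ha δ κ hδ h1 h2 (k + 1) (by omega))
      refine nf_mono h3 ?_
      intro D hD
      simp only [mem_union, mem_ofPred_eq, mem_singleton_iff] at hD ⊢
      omega
  refine nf_mono (key D1) ?_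
  intro D hD
  simp only [mem_union, mem_ofPred_eq] at hD ⊢
  omega

/-! ### the linearised system -/

/-- the previous member of a sequence, `0` at the beginning -/
def prv (k : ℕ → ℝ) : ℕ → ℝ
  | 0 => 0
  | i + 1 => k i

lemma tri_solve (hT : GTri) {c C B : ℝ} (hc : 0 < c) (gx Qs H cp Fa FX Fb w : ℕ → ℝ)
    (hgx : ∀ i, c ≤ |gx i| ∧ |gx i| ≤ C) (hQ : ∀ i, c ≤ |Qs i|)
    (hH : ∀ i, |H i| = |gx (i + 1)|)
    (e1 : ∀ i, cp i * Fb i * Qs i = -(FX i * gx i))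
    (e2 : ∀ i, cp i * Fa i * Qs i = FX i * H i)
    (hB : 0 ≤ B) (hFX : ∀ i, 1 ≤ B * |FX i|) (hcp : ∀ i, |cp i| ≤ B) (hFa : ∀ i, |Fa i| ≤ B)
    (hFb : ∀ i, |Fb i| ≤ B)
    (hw0 : w 0 = 0) (hw1 : ∀ i, 1 ≤ i → w i ≠ 0)
    (hw : ∀ i, Qs i * w (i + 1) = gx i * w (i + 2) - H i * w i)
    (hs1 : ∀ i, 1 ≤ i → ∑ l ∈ Finset.range (i + 1), |w l| ≤ C * |w i|)
    (hs2 : ∀ i n, 1 ≤ i → ∑ l ∈ Finset.Ico i n, 1 / |w l| ≤ C / |w i|) :
    (∀ (r : ℕ → ℝ) (R : ℝ), (∀ i, |r i| ≤ R) → ∃ (h : ℕ → ℝ) (R' : ℝ), (∀ i, |h i| ≤ R') ∧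
      ∀ i, Fa i * prv (fun j => cp j * h j) i + FX i * h i + Fb i * (cp (i + 1) * h (i + 1))
        = r i) ∧
    (∀ (h : ℕ → ℝ) (R' : ℝ), (∀ i, |h i| ≤ R') →
      (∀ i, Fa i * prv (fun j => cp j * h j) i + FX i * h i + Fb i * (cp (i + 1) * h (i + 1))
        = 0) → ∀ i, h i = 0) := by
  obtain ⟨K, hK, hT⟩ := hT c C hc
  have hgx0 : ∀ i, gx i ≠ 0 := fun i h => by
    have := (hgx i).1
    rw [h, abs_zero] at this
    linarith
  have hQ0 : ∀ i, Qs i ≠ 0 := fun i h => by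
    have := hQ i
    rw [h, abs_zero] at this
    linarith
  have hFX0 : ∀ i, FX i ≠ 0 := fun i h => by
    have := hFX i
    rw [h, abs_zero] at this
    linarith
  -- the signs
  obtain ⟨P, hP0, hPs⟩ : ∃ P : ℕ → ℝ, P 0 = gx 0 ∧ ∀ i, P (i + 1) = -(P i / gx i) * H i :=
    ⟨fun i => Nat.rec (gx 0) (fun j p => -(p / gx j) * H j) i, rfl, fun i => rfl⟩
  have hPabs : ∀ i, |P i| = |gx i| := by
    intro i
    induction i with
    | zero => rw [hP0]
    | succ i ih =>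
      rw [hPs, abs_mul, abs_neg, abs_div, ih, div_self (abs_ne_zero.2 (hgx0 i)), one_mul, hH]
  have hσ : ∀ i, P i / gx i ≠ 0 := fun i => by
    have : P i ≠ 0 := by
      rw [← abs_ne_zero, hPabs]
      exact abs_ne_zero.2 (hgx0 i)
    exact div_ne_zero this (hgx0 i)
  have hσ1 : ∀ i, |P i / gx i| = 1 := fun i => by
    rw [abs_div, hPabs, div_self (abs_ne_zero.2 (hgx0 i))]
  have hPg : ∀ i, P i = P i / gx i * gx i := fun i => (div_mul_cancel₀ _ (hgx0 i)).symm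
  obtain ⟨Q, hQ1, hQs⟩ : ∃ Q : ℕ → ℝ, Q 0 = Qs 0 ∧ ∀ i, Q (i + 1) = P i / gx i * Qs i :=
    ⟨fun i => Nat.rec (Qs 0) (fun j _ => P j / gx j * Qs j) i, rfl, fun i => rfl⟩
  have hQc : ∀ i, c ≤ |Q i| := by
    intro i
    cases i with
    | zero => rw [hQ1]; exact hQ 0
    | succ i => rw [hQs, abs_mul, hσ1, one_mul]; exact hQ i
  have hrec : ∀ i, Q (i + 1) * w (i + 1) = P (i + 1) * w i + P i * w (i + 2) := by
    intro i
    rw [hQs, hPs, hPg i]
    have := hw i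
    have h2 : P i / gx i * gx i / gx i = P i / gx i := by
      field_simp [hgx0 i]
    rw [h2]
    linear_combination (P i / gx i) * this
  have hT' := hT P Q w hw0 hw1 (fun i => by rw [hPabs]; exact hgx i) hQc hrec hs1 hs2
  -- the equation for `k`
  have heq : ∀ (i : ℕ) (k0 k1 k2 ρ : ℝ), Q (i + 1) * k1 = P (i + 1) * k0 + P i * k2 +
      Q (i + 1) * ρ ↔ Qs i * k1 = gx i * k2 - H i * k0 + Qs i * ρ := by
    intro i k0 k1 k2 ρ
    rw [hQs, hPs]
    constructor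
    · intro h
      have h3 : P i / gx i * (Qs i * k1) = P i / gx i * (gx i * k2 - H i * k0 + Qs i * ρ) := by
        have := hPg i
        linear_combination h + k2 * this
      exact mul_left_cancel₀ (hσ i) h3
    · intro h
      have := hPg i
      linear_combination (P i / gx i) * h - k2 * this
  refine ⟨?_, ?_⟩
  · intro r R hr
    have hR : 0 ≤ R := (abs_nonneg _).trans (hr 0)
    have hbd : ∀ i, |cp i * r i / FX i| ≤ B * R * B := by
      intro i
      rw [abs_div, abs_mul, div_le_iff₀ (abs_pos.2 (hFX0 i))]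
      have h1 : |cp i| * |r i| ≤ B * R := mul_le_mul (hcp i) (hr i) (abs_nonneg _) hB
      have h2 := hFX i
      have h3 : 0 ≤ B * R := mul_nonneg hB hR
      nlinarith
    obtain ⟨⟨x, hx0, hxb, hx⟩, -⟩ := hT' (prv (fun i => cp i * r i / FX i)) (B * R * B) (by
      intro i
      cases i with
      | zero =>
        show |(0:ℝ)| ≤ _
        rw [abs_zero]; positivity
      | succ i => exact hbd i)
    have hk : ∀ i, Qs i * x (i + 1) = gx i * x (i + 2) - H i * x i + Qs i * (cp i * r i / FX i) :=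
      fun i => (heq i _ _ _ _).1 (hx i)
    have key : ∀ i, cp i * ((r i - Fa i * x i - Fb i * x (i + 2)) / FX i) = x (i + 1) := by
      intro i
      have h1 := hk i
      have h2 := e1 i
      have h3 := e2 i
      have h4 := hFX0 i
      have h5 := hQ0 i
      have h6 : cp i * ((r i - Fa i * x i - Fb i * x (i + 2)) / FX i) * (Qs i * FX i) =
          x (i + 1) * (Qs i * FX i) := by
        have h7 : cp i * ((r i - Fa i * x i - Fb i * x (i + 2)) / FX i) * (Qs i * FX i) =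
            cp i * r i * Qs i - (cp i * Fa i * Qs i) * x i - (cp i * Fb i * Qs i) * x (i + 2) := by
          field_simp
        have h8 : Qs i * (cp i * r i / FX i) * FX i = cp i * r i * Qs i := by
          field_simp
        rw [h7, h2, h3]
        linear_combination (-FX i) * h1 - h8
      exact mul_right_cancel₀ (mul_ne_zero h5 h4) h6
    refine ⟨fun i => (r i - Fa i * x i - Fb i * x (i + 2)) / FX i,
      (R + B * (K * (B * R * B)) + B * (K * (B * R * B))) * B, fun i => ?_, fun i => ?_⟩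
    · show |(r i - Fa i * x i - Fb i * x (i + 2)) / FX i| ≤ _
      rw [abs_div, div_le_iff₀ (abs_pos.2 (hFX0 i))]
      have h1 : |r i - Fa i * x i - Fb i * x (i + 2)| ≤
          R + B * (K * (B * R * B)) + B * (K * (B * R * B)) := by
        have ha : |Fa i * x i| ≤ B * (K * (B * R * B)) := by
          rw [abs_mul]; exact mul_le_mul (hFa i) (hxb i) (abs_nonneg _) hB
        have hb : |Fb i * x (i + 2)| ≤ B * (K * (B * R * B)) := by
          rw [abs_mul]; exact mul_le_mul (hFb i) (hxb _) (abs_nonneg _) hB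
        have h2 := abs_sub (r i - Fa i * x i) (Fb i * x (i + 2))
        have h3 := abs_sub (r i) (Fa i * x i)
        have h4 := hr i
        linarith
      have h2 := hFX i
      have h3 : 0 ≤ R + B * (K * (B * R * B)) + B * (K * (B * R * B)) :=
        (abs_nonneg _).trans h1
      nlinarith
    · have hp : prv (fun j => cp j * ((r j - Fa j * x j - Fb j * x (j + 2)) / FX j)) i = x i := by
        cases i with
        | zero => exact hx0.symm
        | succ i => exact key i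
      show Fa i * prv (fun j => cp j * ((r j - Fa j * x j - Fb j * x (j + 2)) / FX j)) i +
        FX i * ((r i - Fa i * x i - Fb i * x (i + 2)) / FX i) +
        Fb i * (cp (i + 1) * ((r (i + 1) - Fa (i + 1) * x (i + 1) - Fb (i + 1) * x (i + 1 + 2)) /
          FX (i + 1))) = r i
      rw [hp, key (i + 1), mul_div_cancel₀ _ (hFX0 i)]
      ring
  · intro h R' hh heq0
    have hR : 0 ≤ R' := (abs_nonneg _).trans (hh 0)
    obtain ⟨-, huniq⟩ := hT' (fun _ => 0) 0 (fun i => by simp)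
    have hk : ∀ i, Qs i * (cp i * h i) = gx i * (cp (i + 1) * h (i + 1)) -
        H i * prv (fun j => cp j * h j) i + Qs i * 0 := by
      intro i
      have h1 := heq0 i
      have h2 := e1 i
      have h3 := e2 i
      have h6 : (Qs i * (cp i * h i)) * FX i = (gx i * (cp (i + 1) * h (i + 1)) -
          H i * prv (fun j => cp j * h j) i + Qs i * 0) * FX i := by
        linear_combination (cp i * Qs i) * h1 - (cp (i + 1) * h (i + 1)) * h2 -
          (prv (fun j => cp j * h j) i) * h3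
      exact mul_right_cancel₀ (hFX0 i) h6
    have hx0 := huniq (prv (fun j => cp j * h j)) (fun _ => 0) rfl rfl
      ⟨B * R', fun i => by
        cases i with
        | zero =>
          show |(0:ℝ)| ≤ _
          rw [abs_zero]; positivity
        | succ i =>
          show |cp i * h i| ≤ _
          rw [abs_mul]; exact mul_le_mul (hcp i) (hh i) (abs_nonneg _) hB⟩
      ⟨0, fun i => by simp⟩
      (fun i => (heq i _ _ _ _).2 (hk i)) (fun i => by simp)
    have hz : ∀ i, cp i * h i = 0 := fun i => congrFun hx0 (i + 1)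
    intro i
    have h1 := heq0 i
    rw [congrFun hx0 i, hz (i + 1)] at h1
    have h2 : FX i * h i = 0 := by linarith
    exact (mul_eq_zero.1 h2).resolve_left (hFX0 i)

/-! ### the nonlinear system -/

/-- the data of one equation: `(t, x₋, x, x₊)` and the parameters `(e, π₋, π, π₊)` -/
abbrev EE (n : ℕ) := (ℝ × ℝ × ℝ × ℝ) × (ℝ × (Fin n → ℝ) × (Fin n → ℝ) × (Fin n → ℝ))

/-- the arguments of `F` -/
noncomputable def inner {n : ℕ} (c : ℝ × (Fin n → ℝ) → ℝ) (u : EE n) :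
    ℝ × ℝ × ℝ × (Fin n → ℝ) :=
  (u.2.1 * u.1.1 + (1 - u.2.1) * c (u.1.2.1, u.2.2.1), u.1.2.2.1, c (u.1.2.2.2, u.2.2.2.2),
    u.2.2.2.1)

/-- one equation -/
noncomputable def Phi {n : ℕ} (c : ℝ × (Fin n → ℝ) → ℝ) (F : ℝ × ℝ × ℝ × (Fin n → ℝ) → ℝ)
    (u : EE n) : ℝ := F (inner c u)

lemma inner_smooth {n : ℕ} {c : ℝ × (Fin n → ℝ) → ℝ} (hc : ContDiff ℝ ∞ c) :
    ContDiff ℝ ∞ (inner c) := by
  unfold inner
  fun_prop

lemma Phi_smooth {n : ℕ} {c : ℝ × (Fin n → ℝ) → ℝ} {F : ℝ × ℝ × ℝ × (Fin n → ℝ) → ℝ}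
    (hc : ContDiff ℝ ∞ c) (hF : ContDiff ℝ ∞ F) : ContDiff ℝ ∞ (Phi c F) :=
  hF.comp (inner_smooth hc)

lemma fd_smul {n : ℕ} {c : ℝ × (Fin n → ℝ) → ℝ} (p : ℝ × (Fin n → ℝ)) (h : ℝ) :
    fderiv ℝ c p (h, 0) = fderiv ℝ c p (1, 0) * h := by
  have : ((h, 0) : ℝ × (Fin n → ℝ)) = h • (1, 0) := by simp
  rw [this, map_smul, smul_eq_mul, mul_comm]

lemma Phi_fderiv {n : ℕ} {c : ℝ × (Fin n → ℝ) → ℝ} {F : ℝ × ℝ × ℝ × (Fin n → ℝ) → ℝ}
    (hc : ContDiff ℝ ∞ c) (hF : ContDiff ℝ ∞ F) (u : EE n) (s h0 h1 h2 : ℝ) :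
    fderiv ℝ (Phi c F) u ((s, h0, h1, h2), 0) =
      fderiv ℝ F (inner c u) (u.2.1 * s + (1 - u.2.1) *
        (fderiv ℝ c (u.1.2.1, u.2.2.1) (1, 0) * h0), h1,
          fderiv ℝ c (u.1.2.2.2, u.2.2.2.2) (1, 0) * h2, 0) := by
  obtain ⟨⟨t, x0, x1, x2⟩, e, p0, p1, p2⟩ := u
  have hΦ : HasFDerivAt (Phi c F) (fderiv ℝ (Phi c F) ((t, x0, x1, x2), e, p0, p1, p2))
      ((t, x0, x1, x2), e, p0, p1, p2) :=
    ((Phi_smooth hc hF).differentiable (by simp) _).hasFDerivAt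
  have lin : ∀ a b : ℝ, HasDerivAt (fun τ : ℝ => a + τ * b) b 0 := fun a b => by
    simpa using ((hasDerivAt_id (0:ℝ)).mul_const b).const_add a
  have line : HasDerivAt (fun τ : ℝ => (((t + τ * s, x0 + τ * h0, x1 + τ * h1, x2 + τ * h2),
      e, p0, p1, p2) : EE n)) ((s, h0, h1, h2), 0) 0 :=
    ((lin t s).prodMk ((lin x0 h0).prodMk ((lin x1 h1).prodMk (lin x2 h2)))).prodMk
      (hasDerivAt_const _ _)
  have d1 := hΦ.comp_hasDerivAt_of_eq (0:ℝ) line (by simp)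
  have hcd : ∀ (x h : ℝ) (p : Fin n → ℝ), HasDerivAt (fun τ : ℝ => c (x + τ * h, p))
      (fderiv ℝ c (x, p) (1, 0) * h) 0 := by
    intro x h p
    have h1 : HasFDerivAt c (fderiv ℝ c (x, p)) (x, p) :=
      (hc.differentiable (by simp) _).hasFDerivAt
    have h2 : HasDerivAt (fun τ : ℝ => ((x + τ * h, p) : ℝ × (Fin n → ℝ))) (h, 0) 0 :=
      (lin x h).prodMk (hasDerivAt_const _ _)
    have h3 := h1.comp_hasDerivAt_of_eq (0:ℝ) h2 (by simp)
    rw [fd_smul] at h3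
    exact h3
  have hFd : HasFDerivAt F (fderiv ℝ F (inner c ((t, x0, x1, x2), e, p0, p1, p2)))
      (inner c ((t, x0, x1, x2), e, p0, p1, p2)) :=
    (hF.differentiable (by simp) _).hasFDerivAt
  have d2' : HasDerivAt (fun τ : ℝ => ((e * (t + τ * s) + (1 - e) * c (x0 + τ * h0, p0),
      x1 + τ * h1, c (x2 + τ * h2, p2), p1) : ℝ × ℝ × ℝ × (Fin n → ℝ)))
      (e * s + (1 - e) * (fderiv ℝ c (x0, p0) (1, 0) * h0), h1,
          fderiv ℝ c (x2, p2) (1, 0) * h2, 0) 0 :=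
    (((lin t s).const_mul e).add ((hcd x0 h0 p0).const_mul (1 - e))).prodMk
      ((lin x1 h1).prodMk ((hcd x2 h2 p2).prodMk (hasDerivAt_const _ _)))
  have d2 := hFd.comp_hasDerivAt_of_eq (0:ℝ) d2' (by simp [inner])
  exact d1.unique d2

lemma AL_bd {n : ℕ} (v : ℝ × (ℕ →ᵇ ℝ)) (i : ℕ) :
    ‖(((v.1, prv v.2 i, v.2 i, v.2 (i + 1)), 0) : EE n)‖ ≤ ‖v‖ := by
  have h1 : ‖v.1‖ ≤ ‖v‖ := norm_fst_le v
  have h2 : ∀ j, ‖v.2 j‖ ≤ ‖v‖ := fun j => (v.2.norm_coe_le_norm j).trans (norm_snd_le v)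
  have h3 : ‖prv v.2 i‖ ≤ ‖v‖ := by
    cases i with
    | zero => simp [prv]
    | succ i => exact h2 i
  simp only [Prod.norm_def, norm_zero]
  simp only [Prod.norm_def] at h1 h2 h3
  simp only [max_le_iff]
  refine ⟨⟨h1, h3, h2 i, h2 (i + 1)⟩, ?_⟩
  simp

/-- the linear part of the argument -/
noncomputable def AL (n : ℕ) : (ℝ × (ℕ →ᵇ ℝ)) →L[ℝ] (ℕ →ᵇ EE n) :=
  LinearMap.mkContinuous
    { toFun := fun v => BoundedContinuousFunction.ofNormedAddCommGroupDiscrete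
        (fun i => (((v.1, prv v.2 i, v.2 i, v.2 (i + 1)), 0) : EE n)) ‖v‖ (AL_bd v)
      map_add' := by
        intro v w
        ext i
        · rfl
        · cases i with
          | zero => simp [prv]
          | succ i => rfl
        · rfl
        · rfl
        all_goals simp
      map_smul' := by
        intro a v
        ext i
        · rfl
        · cases i with
          | zero => simp [prv]
          | succ i => rfl
        · rfl
        · rfl
        all_goals simp } 1 (by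
      intro v
      rw [one_mul]
      exact BoundedContinuousFunction.norm_ofNormedAddCommGroup_le _ (norm_nonneg _) (AL_bd v))

lemma AL_apply (n : ℕ) (v : ℝ × (ℕ →ᵇ ℝ)) (i : ℕ) :
    AL n v i = ((v.1, prv v.2 i, v.2 i, v.2 (i + 1)), 0) := rfl

/-- the previous parameter -/
def prvp {n : ℕ} (p : ℕ → Fin n → ℝ) : ℕ → Fin n → ℝ
  | 0 => 0
  | i + 1 => p i

/-- the flag -/
def flag : ℕ → ℝ
  | 0 => 1
  | _ + 1 => 0

/-- **Inverse function argument on `ℝ × ℓ^∞`.** -/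
lemma ift_seq (hS : GSup) {n : ℕ} {c : ℝ × (Fin n → ℝ) → ℝ} {F : ℝ × ℝ × ℝ × (Fin n → ℝ) → ℝ}
    (hc : ContDiff ℝ ∞ c) (hF : ContDiff ℝ ∞ F) (pm : ℕ → Fin n → ℝ) (X : ℕ → ℝ → ℝ)
    (z0 r0 K M : ℝ) (hr0 : 0 < r0) (hK : 0 ≤ K) (hM : 0 ≤ M)
    (hpm : ∀ i j, |pm i j| ≤ K)
    (hX : ∀ i, ∀ t ∈ Icc (z0 - r0) (z0 + r0), |X i t| ≤ K)
    (hLip : ∀ i, ∀ t ∈ Icc (z0 - r0) (z0 + r0), |X i t - X i z0| ≤ M * |t - z0|)
    (hE0 : ∀ t ∈ Icc (z0 - r0) (z0 + r0), F (t, X 0 t, c (X 1 t, pm 1), pm 0) = 0)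
    (hES : ∀ i, ∀ t ∈ Icc (z0 - r0) (z0 + r0),
      F (c (X i t, pm i), X (i + 1) t, c (X (i + 2) t, pm (i + 2)), pm (i + 1)) = 0)
    (a b : ℕ → ℝ) (ha0 : a 0 = z0) (haS : ∀ i, a (i + 1) = c (X i z0, pm i))
    (hb : ∀ i, b i = c (X (i + 1) z0, pm (i + 1)))
    (hsurj : ∀ (r : ℕ → ℝ) (R : ℝ), (∀ i, |r i| ≤ R) → ∃ (h : ℕ → ℝ) (R' : ℝ),
      (∀ i, |h i| ≤ R') ∧
      ∀ i, fderiv ℝ F (a i, X i z0, b i, pm i)
        (prv (fun j => fderiv ℝ c (X j z0, pm j) (1, 0) * h j) i, h i,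
          fderiv ℝ c (X (i + 1) z0, pm (i + 1)) (1, 0) * h (i + 1), 0) = r i)
    (hinj : ∀ (h : ℕ → ℝ) (R' : ℝ), (∀ i, |h i| ≤ R') →
      (∀ i, fderiv ℝ F (a i, X i z0, b i, pm i)
        (prv (fun j => fderiv ℝ c (X j z0, pm j) (1, 0) * h j) i, h i,
          fderiv ℝ c (X (i + 1) z0, pm (i + 1)) (1, 0) * h (i + 1), 0) = 0) → ∀ i, h i = 0) :
    ContDiffAt ℝ ∞ (X 0) z0 := by
  obtain ⟨S, hSs, hS1, hS2⟩ := hS (EE n) ℝ (Phi c F) (Phi_smooth hc hF)
  -- the parameters as an element of `ℓ^∞`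
  have hpn : ∀ i, ‖pm i‖ ≤ K := fun i => (pi_norm_le_iff_of_nonneg hK).2 (hpm i)
  have hB : ∀ i, ‖(((0, 0, 0, 0), flag i, prvp pm i, pm i, pm (i + 1)) : EE n)‖ ≤ max 1 K := by
    intro i
    have h1 : ‖flag i‖ ≤ max 1 K := by
      refine le_trans ?_ (le_max_left 1 K)
      cases i with
      | zero => simp [flag]
      | succ i => simp [flag]
    have h2 : ‖prvp pm i‖ ≤ max 1 K := by
      refine le_trans ?_ (le_max_right 1 K)
      cases i with
      | zero => simpa [prvp] using hK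
      | succ i => exact hpn i
    have h3 : ∀ j, ‖pm j‖ ≤ max 1 K := fun j => (hpn j).trans (le_max_right 1 K)
    rw [Prod.norm_def, max_le_iff, Prod.norm_def, Prod.norm_def, Prod.norm_def, Prod.norm_def,
      Prod.norm_def, Prod.norm_def]
    simp only [max_le_iff]
    refine ⟨⟨?_, ?_, ?_, ?_⟩, h1, h2, h3 i, h3 (i + 1)⟩ <;> simp
  set Bp : ℕ →ᵇ EE n := BoundedContinuousFunction.ofNormedAddCommGroupDiscrete
    (fun i => (((0, 0, 0, 0), flag i, prvp pm i, pm i, pm (i + 1)) : EE n)) (max 1 K) hB with hBp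
  have hBa : ∀ i, Bp i = ((0, 0, 0, 0), flag i, prvp pm i, pm i, pm (i + 1)) := fun i => rfl
  set Ψ : ℝ × (ℕ →ᵇ ℝ) → ℝ × (ℕ →ᵇ ℝ) := fun v => (v.1, S (AL n v + Bp)) with hΨ
  have hΨs : ContDiff ℝ ∞ Ψ :=
    contDiff_fst.prodMk (hSs.comp ((AL n).contDiff.add contDiff_const))
  -- the curve
  have hz0 : z0 ∈ Icc (z0 - r0) (z0 + r0) := ⟨by linarith, by linarith⟩
  set cl : ℝ → ℝ := fun t => max (z0 - r0) (min (z0 + r0) t) with hcl
  have hclI : ∀ t, cl t ∈ Icc (z0 - r0) (z0 + r0) := fun t =>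
    ⟨le_max_left _ _, max_le (by linarith) (min_le_left _ _)⟩
  have hcle : ∀ t ∈ Icc (z0 - r0) (z0 + r0), cl t = t := by
    intro t ht
    rw [hcl]
    simp only
    rw [min_eq_right ht.2, max_eq_right ht.1]
  set XX : ℝ → (ℕ →ᵇ ℝ) := fun t => BoundedContinuousFunction.ofNormedAddCommGroupDiscrete
    (fun i => X i (cl t)) K (fun i => hX i _ (hclI t)) with hXX
  have hXXa : ∀ t ∈ Icc (z0 - r0) (z0 + r0), ∀ i, XX t i = X i t := by
    intro t ht i
    show X i (cl t) = X i t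
    rw [hcle t ht]
  -- the argument of `Phi` along the curve
  have harg : ∀ t ∈ Icc (z0 - r0) (z0 + r0), ∀ i, (AL n (t, XX t) + Bp) i =
      ((t, prv (fun j => X j t) i, X i t, X (i + 1) t), flag i, prvp pm i, pm i, pm (i + 1)) := by
    intro t ht i
    have h1 : (AL n (t, XX t) + Bp) i = AL n (t, XX t) i + Bp i := rfl
    have h2 : prv (XX t) i = prv (fun j => X j t) i := by
      cases i with
      | zero => rfl
      | succ i => exact hXXa t ht i
    rw [h1, AL_apply, hBa]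
    simp only [hXXa t ht, h2, Prod.mk_add_mk, add_zero, Prod.zero_eq_mk, zero_add]
  have hzero : ∀ t ∈ Icc (z0 - r0) (z0 + r0), Ψ (t, XX t) = (t, 0) := by
    intro t ht
    rw [hΨ]
    simp only
    congr 1
    ext i
    rw [hS1, harg t ht i]
    cases i with
    | zero =>
      have := hE0 t ht
      simpa [Phi, inner, flag, prv, prvp] using this
    | succ i =>
      have := hES i t ht
      simpa [Phi, inner, flag, prv, prvp] using this
  -- the derivative at the base point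
  set v0 : ℝ × (ℕ →ᵇ ℝ) := (z0, XX z0) with hv0
  set Ψ' : (ℝ × (ℕ →ᵇ ℝ)) →L[ℝ] (ℝ × (ℕ →ᵇ ℝ)) :=
    (ContinuousLinearMap.fst ℝ ℝ (ℕ →ᵇ ℝ)).prod ((fderiv ℝ S (AL n v0 + Bp)).comp (AL n)) with hΨ'
  have hder : HasFDerivAt Ψ Ψ' v0 := by
    have h1 : HasFDerivAt S (fderiv ℝ S (AL n v0 + Bp)) (AL n v0 + Bp) :=
      (hSs.differentiable (by simp) _).hasFDerivAt
    have h2 : HasFDerivAt (fun v => AL n v + Bp) (AL n) v0 := (AL n).hasFDerivAt.add_const Bp
    exact (ContinuousLinearMap.fst ℝ ℝ (ℕ →ᵇ ℝ)).hasFDerivAt.prodMk (h1.comp v0 h2)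
  have hin : ∀ i, inner c ((AL n v0 + Bp) i) = (a i, X i z0, b i, pm i) := by
    intro i
    rw [hv0, harg z0 hz0 i, hb]
    cases i with
    | zero => rw [ha0]; simp [inner, flag, prv, prvp]
    | succ i => rw [haS]; simp [inner, flag, prv, prvp]
  have hdir : ∀ (h : ℕ →ᵇ ℝ) (i : ℕ), (fderiv ℝ S (AL n v0 + Bp) (AL n (0, h))) i =
      fderiv ℝ F (a i, X i z0, b i, pm i)
        (prv (fun j => fderiv ℝ c (X j z0, pm j) (1, 0) * h j) i, h i,
          fderiv ℝ c (X (i + 1) z0, pm (i + 1)) (1, 0) * h (i + 1), 0) := by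
    intro h i
    rw [hS2, AL_apply, Phi_fderiv hc hF, hin]
    rw [hv0, harg z0 hz0 i]
    congr 2
    cases i with
    | zero => simp [flag, prv]
    | succ i => simp [flag, prv, prvp]
  have hker : Ψ'.ker = ⊥ := by
    rw [LinearMap.ker_eq_bot']
    intro v hv
    have h1 : v.1 = 0 := congrArg Prod.fst hv
    have h2 : fderiv ℝ S (AL n v0 + Bp) (AL n v) = 0 := congrArg Prod.snd hv
    obtain ⟨s, h⟩ := v
    simp only at h1
    subst h1
    have h3 := hinj h ‖h‖ (fun i => h.norm_coe_le_norm i) (fun i => by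
      rw [← hdir, h2]; rfl)
    have h4 : h = 0 := by ext i; exact h3 i
    rw [h4]
    rfl
  have hran : Ψ'.range = ⊤ := by
    rw [LinearMap.range_eq_top]
    rintro ⟨s, r⟩
    set r' : ℕ →ᵇ ℝ := r - fderiv ℝ S (AL n v0 + Bp) (AL n (s, 0)) with hr'
    obtain ⟨h, R', hh, heq⟩ := hsurj r' ‖r'‖ (fun i => r'.norm_coe_le_norm i)
    set hb' : ℕ →ᵇ ℝ := BoundedContinuousFunction.ofNormedAddCommGroupDiscrete h R' hh with hhb
    have h5 : fderiv ℝ S (AL n v0 + Bp) (AL n (0, hb')) = r' := by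
      ext i
      rw [hdir]
      exact heq i
    refine ⟨(s, hb'), ?_⟩
    show (s, fderiv ℝ S (AL n v0 + Bp) (AL n (s, hb'))) = (s, r)
    have h6 : ((s, hb') : ℝ × (ℕ →ᵇ ℝ)) = (s, 0) + (0, hb') := by simp
    rw [h6, map_add, map_add, h5, hr']
    congr 1
    abel
  set Ψe : (ℝ × (ℕ →ᵇ ℝ)) ≃L[ℝ] (ℝ × (ℕ →ᵇ ℝ)) :=
    ContinuousLinearEquiv.ofBijective Ψ' hker hran with hΨe
  have hder' : HasFDerivAt Ψ (Ψe : (ℝ × (ℕ →ᵇ ℝ)) →L[ℝ] (ℝ × (ℕ →ᵇ ℝ))) v0 := by
    rw [hΨe, ContinuousLinearEquiv.coe_ofBijective]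
    exact hder
  have hn : (∞ : WithTop ℕ∞) ≠ 0 := by simp
  have hsm := hΨs.contDiffAt.to_localInverse hder' hn
  have hleft := (hΨs.contDiffAt.hasStrictFDerivAt' hder' hn).eventually_left_inverse
  -- continuity of the curve
  have hcurve : Tendsto (fun t => ((t, XX t) : ℝ × (ℕ →ᵇ ℝ))) (𝓝 z0) (𝓝 v0) := by
    refine tendsto_id.prodMk_nhds ?_
    rw [tendsto_iff_norm_sub_tendsto_zero]
    have h1 : Tendsto (fun t => M * |t - z0|) (𝓝 z0) (𝓝 0) := by
      have : Continuous fun t : ℝ => M * |t - z0| := by fun_prop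
      have h2 := this.tendsto z0
      simpa using h2
    refine tendsto_of_tendsto_of_tendsto_of_le_of_le' tendsto_const_nhds h1
      (Eventually.of_forall fun t => norm_nonneg _) ?_
    filter_upwards [Icc_mem_nhds (show z0 - r0 < z0 by linarith) (show z0 < z0 + r0 by linarith)]
      with t ht
    refine (BoundedContinuousFunction.norm_le (by positivity)).2 fun i => ?_
    show ‖XX t i - XX z0 i‖ ≤ _
    rw [hXXa t ht, hXXa z0 hz0]
    exact hLip i t ht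
  have hev : ∀ᶠ t in 𝓝 z0, X 0 t =
      ((hΨs.contDiffAt.localInverse hder' hn) (t, 0)).2 0 := by
    filter_upwards [hcurve.eventually hleft,
      Icc_mem_nhds (show z0 - r0 < z0 by linarith) (show z0 < z0 + r0 by linarith)] with t h1 ht
    have h2 : (hΨs.contDiffAt.localInverse hder' hn) (Ψ (t, XX t)) = (t, XX t) := h1
    rw [hzero t ht] at h2
    rw [h2]
    exact (hXXa t ht 0).symm
  refine ContDiffAt.congr_of_eventuallyEq ?_ hev
  have hbase : Ψ v0 = (z0, 0) := hzero z0 hz0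
  rw [hbase] at hsm
  have h1 : ContDiffAt ℝ ∞ (fun t : ℝ => ((t, 0) : ℝ × (ℕ →ᵇ ℝ))) z0 :=
    contDiffAt_id.prodMk contDiffAt_const
  have h2 : ContDiffAt ℝ ∞ (fun t : ℝ => (hΨs.contDiffAt.localInverse hder' hn) (t, 0)) z0 :=
    ContDiffAt.comp z0 hsm h1
  have h3 : ContDiff ℝ ∞ (fun v : ℝ × (ℕ →ᵇ ℝ) => v.2 0) :=
    ((BoundedContinuousFunction.evalCLM ℝ (0:ℕ)).comp
      (ContinuousLinearMap.snd ℝ ℝ (ℕ →ᵇ ℝ))).contDiff
  exact h3.contDiffAt.comp z0 h2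

/-! ### assembly -/

lemma gX_bounds {δ κ : ℝ} (h1 : 1 ≤ κ) {p : P3} (hp : OnS δ p) (hz : |p.z| ≤ κ)
    (hy : |p.y| ≤ κ) : 1 + δ ^ 2 - κ ^ 2 ≤ gX p ^ 2 ∧ gX p ^ 2 ≤ δ ^ 2 + (1 + κ ^ 2) ^ 2 := by
  have h2 := hp.X2
  have hz2 : p.z ^ 2 ≤ κ ^ 2 := by
    rw [← sq_abs p.z]; exact pow_le_pow_left₀ (abs_nonneg _) hz 2
  have hy2 : p.y ^ 2 ≤ κ ^ 2 := by
    rw [← sq_abs p.y]; exact pow_le_pow_left₀ (abs_nonneg _) hy 2
  have hk : 1 ≤ κ ^ 2 := one_le_pow₀ h1
  have hz0 := sq_nonneg p.z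
  have hy0 := sq_nonneg p.y
  rw [h2]
  generalize p.z ^ 2 = s at *
  generalize p.y ^ 2 = t at *
  generalize κ ^ 2 = k at *
  constructor
  · rcases le_total t 1 with ht | ht
    · nlinarith [mul_nonneg (sub_nonneg.2 hz2) (sub_nonneg.2 ht),
        mul_nonneg hy0 (sub_nonneg.2 hk)]
    · rcases le_total s 1 with hs | hs
      · nlinarith [mul_nonneg (sub_nonneg.2 hy2) (sub_nonneg.2 hs),
          mul_nonneg hz0 (sub_nonneg.2 hk)]
      · nlinarith [mul_nonneg (sub_nonneg.2 ht) (sub_nonneg.2 hs)]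
  · nlinarith [mul_nonneg hz0 hy0, mul_nonneg (sub_nonneg.2 hz2) hy0,
      mul_nonneg (sub_nonneg.2 hy2) hz0, mul_nonneg (sub_nonneg.2 hz2) (sub_nonneg.2 hy2)]

lemma tan_V (p : P3) : Tan p (fV p) := by
  unfold Tan fV; simp only; ring

lemma tan_H (p : P3) : Tan p (fH p) := by
  unfold Tan fH; simp only; ring

lemma fd_lin {n : ℕ} {F : ℝ × ℝ × ℝ × (Fin n → ℝ) → ℝ} (p : ℝ × ℝ × ℝ × (Fin n → ℝ))
    (x y z : ℝ) : fderiv ℝ F p (x, y, z, 0) = fderiv ℝ F p (1, 0, 0, 0) * x +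
      fderiv ℝ F p (0, 1, 0, 0) * y + fderiv ℝ F p (0, 0, 1, 0) * z := by
  have : ((x, y, z, 0) : ℝ × ℝ × ℝ × (Fin n → ℝ)) =
      x • (1, 0, 0, 0) + y • (0, 1, 0, 0) + z • (0, 0, 1, 0) := by simp
  rw [this, map_add, map_add, map_smul, map_smul, map_smul, smul_eq_mul, smul_eq_mul,
    smul_eq_mul]
  ring

lemma bd_fderiv {E : Type*} [NormedAddCommGroup E] [NormedSpace ℝ E] [FiniteDimensional ℝ E]
    {f : E → ℝ} (hf : ContDiff ℝ ∞ f) (R : ℝ) :
    ∃ B : ℝ, ∀ p : E, ‖p‖ ≤ R → ‖fderiv ℝ f p‖ ≤ B := by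
  have h1 : Continuous (fderiv ℝ f) := hf.continuous_fderiv (by simp)
  have : ProperSpace E := FiniteDimensional.proper ℝ E
  obtain ⟨B, hB⟩ := (isCompact_closedBall (0:E) R).exists_bound_of_continuousOn h1.continuousOn
  exact ⟨B, fun p hp => hB p (by simpa using hp)⟩

/-- **Smoothness from the Jacobi operator.** -/
theorem tSJac (ha : SNFa) (hb : SNFb) (hu : SNFu) (hQ : SQ) (hS : GSup) (hT : GTri) : SJac := by
  intro δ κ hδ h1κ hκ z0 r0 hr0 q D C hD hq hcont hq0 hlip w hw0 hw1 hwt hs1 hs2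
  obtain ⟨n, c, F, K, hc, hF, hK, hNF⟩ := nf_all ha hb hu hδ h1κ.le hκ
  obtain ⟨cq, hcq, hQ⟩ := hQ δ κ hδ (by linarith) hκ
  have hz0 : z0 ∈ Icc (z0 - r0) (z0 + r0) := ⟨by linarith, by linarith⟩
  have hC : 0 ≤ C := by
    have h1 := hlip 0 z0 hz0 (z0 + r0) ⟨by linarith, le_rfl⟩
    have h2 : |z0 - (z0 + r0)| = r0 := by
      rw [show z0 - (z0 + r0) = -r0 by ring, abs_neg, abs_of_pos hr0]
    rw [h2] at h1
    have h3 : 0 ≤ C * r0 := (abs_nonneg _).trans h1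
    exact nonneg_of_mul_nonneg_left h3 hr0
  have hbκ : ∀ i, ∀ t ∈ Icc (z0 - r0) (z0 + r0), |(stepR^[D i] (q i t)).z| ≤ κ := by
    intro i t ht
    rw [← (hq i t ht).2.2.2.2]
    exact (hq (i + 1) t ht).2.2.1
  have hex := fun i => hNF (D i) (hD i) (Icc (z0 - r0) (z0 + r0)) (q i) ordConnected_Icc
    ⟨z0, hz0⟩ (hcont i)
    (fun t ht => ⟨(hq i t ht).1, (hq i t ht).2.1, (hq i t ht).2.2.1, hbκ i t ht⟩)
  choose pm X hpm hX hXL using hex
  -- bounds of the derivatives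
  obtain ⟨B1, hB1⟩ := bd_fderiv hc K
  obtain ⟨B2, hB2⟩ := bd_fderiv hF (max κ K)
  have hpn : ∀ i, ‖pm i‖ ≤ K := fun i => (pi_norm_le_iff_of_nonneg hK.le).2 (hpm i)
  set B : ℝ := max K (max B1 B2) with hBdef
  have hBK : K ≤ B := le_max_left _ _
  have hBB1 : B1 ≤ B := (le_max_left _ _).trans (le_max_right _ _)
  have hBB2 : B2 ≤ B := (le_max_right _ _).trans (le_max_right _ _)
  have hB0 : 0 ≤ B := hK.le.trans hBK
  have hcp : ∀ i, |fderiv ℝ c (X i z0, pm i) (1, 0)| ≤ B := by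
    intro i
    have h1 : ‖((X i z0, pm i) : ℝ × (Fin n → ℝ))‖ ≤ K := by
      rw [Prod.norm_def]; exact max_le (hX i z0 hz0).1 (hpn i)
    have h2 := (fderiv ℝ c (X i z0, pm i)).le_opNorm ((1, 0) : ℝ × (Fin n → ℝ))
    have h3 : ‖((1, 0) : ℝ × (Fin n → ℝ))‖ = 1 := by simp [Prod.norm_def]
    rw [h3, mul_one] at h2
    exact h2.trans ((hB1 _ h1).trans hBB1)
  have hpt : ∀ i, ‖(((q i z0).z, X i z0, (stepR^[D i] (q i z0)).z, pm i) :
      ℝ × ℝ × ℝ × (Fin n → ℝ))‖ ≤ max κ K := by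
    intro i
    rw [Prod.norm_def, Prod.norm_def, Prod.norm_def]
    refine max_le ((hq i z0 hz0).2.1.trans (le_max_left _ _)) (max_le
      ((hX i z0 hz0).1.trans (le_max_right _ _)) (max_le ((hbκ i z0 hz0).trans (le_max_left _ _))
        ((hpn i).trans (le_max_right _ _))))
  have hFd : ∀ (i : ℕ) (v : ℝ × ℝ × ℝ × (Fin n → ℝ)), ‖v‖ ≤ 1 →
      |fderiv ℝ F ((q i z0).z, X i z0, (stepR^[D i] (q i z0)).z, pm i) v| ≤ B := by
    intro i v hv
    have h2 := (fderiv ℝ F ((q i z0).z, X i z0, (stepR^[D i] (q i z0)).z, pm i)).le_opNorm v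
    have h3 := hB2 _ (hpt i)
    have h4 : 0 ≤ ‖fderiv ℝ F ((q i z0).z, X i z0, (stepR^[D i] (q i z0)).z, pm i)‖ :=
      norm_nonneg _
    have h5 : ‖fderiv ℝ F ((q i z0).z, X i z0, (stepR^[D i] (q i z0)).z, pm i)‖ * ‖v‖ ≤ B := by
      nlinarith
    exact h2.trans h5
  -- the coefficients
  set gx : ℕ → ℝ := fun i => gX (q i z0) with hgx
  set Qs : ℕ → ℝ := fun i => (dRk (D i) (q i z0) (fV (q i z0))).z with hQs
  set H : ℕ → ℝ := fun i => (dRk (D i) (q i z0) (fH (q i z0))).z with hH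
  have hcc : 0 < 1 + δ ^ 2 - κ ^ 2 := by
    have h1 := cc_sq δ
    have h2 := cc_pos δ
    nlinarith
  have hgb : ∀ i, 1 + δ ^ 2 - κ ^ 2 ≤ gx i ^ 2 ∧ gx i ^ 2 ≤ δ ^ 2 + (1 + κ ^ 2) ^ 2 := fun i =>
    gX_bounds h1κ.le (hq i z0 hz0).1 (hq i z0 hz0).2.1 (hq i z0 hz0).2.2.1
  have hgx0 : ∀ i, gx i ≠ 0 := fun i h => by
    have := (hgb i).1
    rw [h] at this
    norm_num at this
    linarith
  have hQi := fun i => hQ (q i z0) (D i) (hq i z0 hz0).1 (hD i) (hq i z0 hz0).2.1 (hbκ i z0 hz0)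
  have hHg : ∀ i, |H i| = |gx (i + 1)| := by
    intro i
    have h1 : H i = gX (stepT (D i) (q i z0)) := (hQi i).2.1
    have h2 : OnS δ (stepT (D i) (q i z0)) := ((hq i z0 hz0).1.iter (D i)).S
    have h3 := h2.X2
    have h4 := (hq (i + 1) z0 hz0).1.X2
    have h5 : (stepT (D i) (q i z0)).y = (q (i + 1) z0).y := (hq i z0 hz0).2.2.2.2.symm
    have h6 : (stepT (D i) (q i z0)).z = (q (i + 1) z0).z := by
      rw [(hq i z0 hz0).2.2.2.1]
      exact iter_y (D i) (q i z0)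
    rw [h5, h6, ← h4, ← h1] at h3
    exact (sq_eq_sq₀ (abs_nonneg _) (abs_nonneg _)).1 (by rw [sq_abs, sq_abs]; exact h3)
  have e1 : ∀ i, fderiv ℝ c (X i z0, pm i) (1, 0) *
      fderiv ℝ F ((q i z0).z, X i z0, (stepR^[D i] (q i z0)).z, pm i) (0, 0, 1, 0) * Qs i =
      -(fderiv ℝ F ((q i z0).z, X i z0, (stepR^[D i] (q i z0)).z, pm i) (0, 1, 0, 0) * gx i) := by
    intro i
    obtain ⟨-, -, -, -, h1⟩ := hX i z0 hz0
    obtain ⟨ν, h2, h3⟩ := h1 (fV (q i z0)) (tan_V _)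
    rw [fd_lin] at h3
    have h4 : (fV (q i z0)).y = gx i := rfl
    have h5 : (fV (q i z0)).z = 0 := rfl
    have h6 : (dRk (D i) (q i z0) (fV (q i z0))).z = Qs i := rfl
    rw [h4] at h2
    rw [h5, h6] at h3
    linear_combination (fderiv ℝ c (X i z0, pm i) (1, 0)) * h3 -
      (fderiv ℝ F ((q i z0).z, X i z0, (stepR^[D i] (q i z0)).z, pm i) (0, 1, 0, 0)) * h2
  have e2 : ∀ i, fderiv ℝ c (X i z0, pm i) (1, 0) *
      fderiv ℝ F ((q i z0).z, X i z0, (stepR^[D i] (q i z0)).z, pm i) (1, 0, 0, 0) * Qs i =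
      fderiv ℝ F ((q i z0).z, X i z0, (stepR^[D i] (q i z0)).z, pm i) (0, 1, 0, 0) * H i := by
    intro i
    obtain ⟨-, -, -, -, h1⟩ := hX i z0 hz0
    obtain ⟨ν, h2, h3⟩ := h1 (fH (q i z0)) (tan_H _)
    rw [fd_lin] at h3
    have h4 : (fH (q i z0)).y = 0 := rfl
    have h5 : (fH (q i z0)).z = gx i := rfl
    have h6 : (dRk (D i) (q i z0) (fH (q i z0))).z = H i := rfl
    rw [h4] at h2
    rw [h5, h6] at h3
    have h7 := e1 i
    refine mul_right_cancel₀ (hgx0 i) ?_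
    linear_combination (fderiv ℝ c (X i z0, pm i) (1, 0) * Qs i) * h3 - (H i) * h7 -
      (fderiv ℝ F ((q i z0).z, X i z0, (stepR^[D i] (q i z0)).z, pm i) (0, 1, 0, 0) * Qs i) * h2
  have hwrec : ∀ i, Qs i * w (i + 1) = gx i * w (i + 2) - H i * w i := by
    intro i
    obtain ⟨u, hu1, hu2, hu3, hu4⟩ := hwt i
    have h1 := (hQi i).2.2 u hu1
    rw [hu2, hu3, hu4] at h1
    linear_combination h1
  -- the solution of the linearised system
  set c1 : ℝ := min cq (√(1 + δ ^ 2 - κ ^ 2)) with hc1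
  have hc1p : 0 < c1 := lt_min hcq (Real.sqrt_pos.2 hcc)
  set C1 : ℝ := max C (δ ^ 2 + (1 + κ ^ 2) ^ 2 + 1) with hC1
  have hsol := tri_solve hT hc1p (C := C1) (B := B) gx Qs H
    (fun i => fderiv ℝ c (X i z0, pm i) (1, 0))
    (fun i => fderiv ℝ F ((q i z0).z, X i z0, (stepR^[D i] (q i z0)).z, pm i) (1, 0, 0, 0))
    (fun i => fderiv ℝ F ((q i z0).z, X i z0, (stepR^[D i] (q i z0)).z, pm i) (0, 1, 0, 0))
    (fun i => fderiv ℝ F ((q i z0).z, X i z0, (stepR^[D i] (q i z0)).z, pm i) (0, 0, 1, 0))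
    w
    (by
      intro i
      constructor
      · refine (min_le_right _ _).trans ?_
        rw [← Real.sqrt_sq_eq_abs]
        exact Real.sqrt_le_sqrt (hgb i).1
      · refine le_trans ?_ (le_max_right _ _)
        have h1 := (hgb i).2
        have h2 : |gx i| ≤ gx i ^ 2 + 1 := by
          rw [← sq_abs]; nlinarith [sq_nonneg (|gx i| - 1), abs_nonneg (gx i)]
        linarith)
    (fun i => (min_le_left _ _).trans (hQi i).1) hHg e1 e2 hB0
    (by
      intro i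
      have h1 := (hX i z0 hz0).2.2.2.1
      rw [div_le_iff₀ hK] at h1
      have h2 : 0 ≤ |fderiv ℝ F ((q i z0).z, X i z0, (stepR^[D i] (q i z0)).z, pm i)
        (0, 1, 0, 0)| := abs_nonneg _
      show 1 ≤ B * |fderiv ℝ F ((q i z0).z, X i z0, (stepR^[D i] (q i z0)).z, pm i)
        (0, 1, 0, 0)|
      nlinarith)
    hcp
    (fun i => hFd i _ (by simp [Prod.norm_def]))
    (fun i => hFd i _ (by simp [Prod.norm_def]))
    hw0 hw1 hwrec
    (fun i hi => (hs1 i hi).trans (mul_le_mul_of_nonneg_right (le_max_left _ _) (abs_nonneg _)))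
    (fun i m hi => (hs2 i m hi).trans
      (div_le_div_of_nonneg_right (le_max_left _ _) (abs_nonneg _)))
  have hmain : ContDiffAt ℝ ∞ (X 0) z0 := by
    refine ift_seq hS hc hF pm X z0 r0 K (K * ((1 + C) + C + C)) hr0 hK.le (by positivity) hpm
      (fun i t ht => (hX i t ht).1) ?_ ?_ ?_
      (fun i => (q i z0).z) (fun i => (stepR^[D i] (q i z0)).z) (hq0 z0 hz0) ?_ ?_ ?_ ?_
    · intro i t ht
      refine (hXL i t ht z0 hz0).trans ?_
      rw [mul_assoc]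
      refine mul_le_mul_of_nonneg_left ?_ hK.le
      have h1 : |(q i t).z - (q i z0).z| ≤ (1 + C) * |t - z0| := by
        cases i with
        | zero =>
          rw [hq0 t ht, hq0 z0 hz0]
          nlinarith [abs_nonneg (t - z0)]
        | succ i =>
          rw [(hq i t ht).2.2.2.1, (hq i z0 hz0).2.2.2.1]
          have := hlip i t ht z0 hz0
          nlinarith [abs_nonneg (t - z0)]
      have h2 := hlip i t ht z0 hz0
      have h3 : |(stepR^[D i] (q i t)).z - (stepR^[D i] (q i z0)).z| ≤ C * |t - z0| := by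
        rw [← (hq i t ht).2.2.2.2, ← (hq i z0 hz0).2.2.2.2]
        exact hlip (i + 1) t ht z0 hz0
      linarith
    · intro t ht
      obtain ⟨-, -, h1, -, -⟩ := hX 0 t ht
      obtain ⟨-, h2, -, -, -⟩ := hX 1 t ht
      rw [h2]
      rw [hq0 t ht, ← (hq 0 t ht).2.2.2.2] at h1
      exact h1
    · intro i t ht
      obtain ⟨-, -, h1, -, -⟩ := hX (i + 1) t ht
      obtain ⟨-, h2, -, -, -⟩ := hX i t ht
      obtain ⟨-, h3, -, -, -⟩ := hX (i + 2) t ht
      rw [h2, h3]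
      rw [(hq i t ht).2.2.2.1, ← (hq (i + 1) t ht).2.2.2.2] at h1
      exact h1
    · intro i
      show (q (i + 1) z0).z = _
      rw [(hX i z0 hz0).2.1]
      exact (hq i z0 hz0).2.2.2.1
    · intro i
      show (stepR^[D i] (q i z0)).z = _
      rw [(hX (i + 1) z0 hz0).2.1]
      exact (hq i z0 hz0).2.2.2.2.symm
    · intro r R hr
      obtain ⟨h, R', h1, h2⟩ := hsol.1 r R hr
      refine ⟨h, R', h1, fun i => ?_⟩
      rw [fd_lin]
      exact h2 i
    · intro h R' h1 h2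
      refine hsol.2 h R' h1 (fun i => ?_)
      have := h2 i
      rw [fd_lin] at this
      exact this
  have hfin : ContDiffAt ℝ ∞ (fun t => c (X 0 t, pm 0)) z0 :=
    ContDiffAt.comp z0 hc.contDiffAt (hmain.prodMk contDiffAt_const)
  refine hfin.congr_of_eventuallyEq ?_
  filter_upwards [Icc_mem_nhds (show z0 - r0 < z0 by linarith) (show z0 < z0 + r0 by linarith)]
    with t ht
  exact ((hX 0 t ht).2.1).symm

end Pool.Agent.H302.TmSJac
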